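import Pool.Agent.Helper54.S4.Stmts

/-!
SPR_4 project, module PT4: groups and labels of the points.
-/

set_option autoImplicit false

namespace Pool.Agent.Helper54.S4

open Finset Pool.Agent.Helper54.SP

theorem st_PT4 : ST_PT4 := by
  refine ⟨?_, ?_, ?_, ?_, ?_, ?_, ?_⟩
  · intro j i hi
    have h1 : gr (pt j i) = j + 1 := by unfold gr pt; omega
    have h2 : la (pt j i) = i := by unfold la pt; omega
    refine ⟨h1, h2, ?_, by unfold pt; omega⟩
    unfold ty tj
    rw [h1]
    rfl
  · intro p hp
    refine ⟨?_, ?_, ?_⟩
    · unfold pt gr la; omega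
    · unfold la; omega
    · unfold gr; omega
  · intro Γ p hp
    unfold N4 gr
    omega
  · intro p q hpq
    unfold gr; omega
  · intro p q hp hpq
    unfold gr at hpq
    unfold la
    omega
  · intro p hp
    unfold gr; omega
  · intro p hp
    unfold gr; omega

end Pool.Agent.Helper54.S4
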